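import Mathlib
import Pool.Agent.Y947.RL2.All2
import Pool.Agent.X184.Leh.D1

/-!
# The relative Lehmer problem over cyclotomic fields and the relative discriminant: number fields
-/

set_option autoImplicit false

open Finset Polynomial Module Pool.Agent.H388SL Pool.Agent.Y947.DL Pool.Agent.Y947.RL

namespace Pool.Agent.X184.RD

section
variable {K : Type} [Field K] [NumberField K]

/-- the sum of the logarithms of the absolute values of the relative discriminants -/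
noncomputable def SD (ζ α : K) : ℝ :=
  ∑ σ : K →ₐ[ℚ] ℂ, ∑ τ ∈ cls ζ (σ ζ), Real.log ‖σ α - τ α‖

/-- the relative degree -/
noncomputable def nn (K : Type) [Field K] [NumberField K] (m : ℕ) : ℝ :=
  (finrank ℚ K : ℝ) / Nat.totient m

/-- the defect of the relative discriminant -/
noncomputable def Bd (m : ℕ) (ζ α : K) : ℝ :=
  Real.log (nn K m) - SD ζ α / finrank ℚ K

lemma card_cls {m : ℕ} (hm : 0 < m) {ζ : K} (hζ : IsPrimitiveRoot ζ m) (σ : K →ₐ[ℚ] ℂ) :
    ((cls ζ (σ ζ)).card : ℝ) = nn K m := by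
  have h1 := (Y65.RL.tr K m ζ hm hζ).2.2 (σ ζ)
    (hζ.map_of_injective (f := σ) σ.toRingHom.injective)
  have hφ : (0:ℝ) < Nat.totient m := by exact_mod_cast Nat.totient_pos.mpr hm
  unfold nn
  rw [← h1]
  push_cast
  field_simp

lemma one_le_nn {m : ℕ} (hm : 0 < m) {ζ : K} (hζ : IsPrimitiveRoot ζ m) : 1 ≤ nn K m := by
  have hne : Nonempty (K →ₐ[ℚ] ℂ) := by
    rw [← Fintype.card_pos_iff, AlgHom.card ℚ K ℂ]
    exact finrank_pos
  obtain ⟨σ⟩ := hne
  rw [← card_cls hm hζ σ]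
  have : σ ∈ cls ζ (σ ζ) := by simp [cls]
  exact_mod_cast Finset.card_pos.mpr ⟨σ, this⟩

lemma EP_le_SD {m : ℕ} {ζ α : K} (hC : Ctx2 m ζ α) {ε : ℝ} (hε0 : 0 < ε) (hε : ε ≤ 1 / 2) :
    EP ζ α (fun _ => ε) 1 1 1 1 ≤ -SD ζ α + 2 * nn K m * lam α +
      2 * ε * (finrank ℚ K * nn K m) + finrank ℚ K * Real.log (1 / ε) := by
  classical
  have hcard : Fintype.card (K →ₐ[ℚ] ℂ) = finrank ℚ K := AlgHom.card ℚ K ℂ
  have hs0 : 0 ≤ (1 - ε) * (1 - ε) := mul_nonneg (by linarith) (by linarith)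
  have hs1 : (1 - ε) * (1 - ε) < 1 := by nlinarith
  have hpt : ∀ σ ∈ (Finset.univ : Finset (K →ₐ[ℚ] ℂ)), ∀ τ ∈ (Finset.univ : Finset (K →ₐ[ℚ] ℂ)),
      (if (σ ζ) ^ 1 = (τ ζ) ^ 1 then
        -Real.log ‖1 - ww α (fun _ => ε) σ ^ 1 * starRingEnd ℂ (ww α (fun _ => ε) τ ^ 1)‖ else 0) ≤
      (if σ ζ = τ ζ then (-Real.log ‖σ α - τ α‖ +
        (Real.log (max 1 ‖σ α‖) + Real.log (max 1 ‖τ α‖) + 2 * ε)) else 0) +
        (if σ = τ then Real.log (1 / ε) else 0) := by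
    intro σ _ τ _
    rw [pow_one, pow_one]
    by_cases hz : σ ζ = τ ζ
    swap
    · rw [if_neg hz, if_neg hz, if_neg (fun h => hz (by rw [h]))]
      norm_num
    rw [if_pos hz, if_pos hz]
    have e1 := ww_mul α (fun _ => ε) σ τ one_ne_zero one_ne_zero
    rw [e1]
    simp only [pow_one]
    have hLi : 0 ≤ Real.log (max 1 ‖σ α‖) := Real.log_nonneg (le_max_left _ _)
    have hLj : 0 ≤ Real.log (max 1 ‖τ α‖) := Real.log_nonneg (le_max_left _ _)
    by_cases hst : σ = τ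
    · subst hst
      rw [if_pos rfl, sub_self, norm_zero, Real.log_zero]
      have h1 : ε ≤ ‖1 - (((1 - ε) * (1 - ε) : ℝ) : ℂ) *
          (refl (σ α) * starRingEnd ℂ (refl (σ α)))‖ := by
        have h2 : ‖(((1 - ε) * (1 - ε) : ℝ) : ℂ) * (refl (σ α) * starRingEnd ℂ (refl (σ α)))‖ ≤
            (1 - ε) * (1 - ε) := by
          rw [norm_mul, norm_mul, RCLike.norm_conj, Complex.norm_real, Real.norm_of_nonneg hs0]
          have h3 : ‖refl (σ α)‖ * ‖refl (σ α)‖ ≤ 1 :=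
            mul_le_one₀ (norm_refl_le _) (norm_nonneg _) (norm_refl_le _)
          exact mul_le_of_le_one_right hs0 h3
        have h4 := norm_sub_norm_le (1:ℂ)
          ((((1 - ε) * (1 - ε) : ℝ) : ℂ) * (refl (σ α) * starRingEnd ℂ (refl (σ α))))
        rw [norm_one] at h4
        nlinarith
      have h5 := Real.log_le_log hε0 h1
      rw [one_div, Real.log_inv]
      linarith
    · rw [if_neg hst, add_zero]
      have hne : σ α ≠ τ α := fun e => hst (hC.gen σ τ hz e)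
      have h2 := Pool.Agent.Y947.DL.pair_log hne hs0 hs1
      nlinarith
  have hsum := Finset.sum_le_sum fun σ hσ => Finset.sum_le_sum fun τ hτ => hpt σ hσ τ hτ
  have hcl : ∀ (σ : K →ₐ[ℚ] ℂ) (g : (K →ₐ[ℚ] ℂ) → ℝ),
      (∑ τ : K →ₐ[ℚ] ℂ, if σ ζ = τ ζ then g τ else 0) = ∑ τ ∈ cls ζ (σ ζ), g τ := by
    intro σ g
    rw [← Finset.sum_filter]
    apply Finset.sum_congr _ fun _ _ => rfl
    unfold cls
    ext τ
    simp only [Finset.mem_filter, Finset.mem_univ, true_and]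
    exact eq_comm
  have e2 : ∑ σ : K →ₐ[ℚ] ℂ, ∑ τ : K →ₐ[ℚ] ℂ, (if σ = τ then Real.log (1 / ε) else 0) =
      finrank ℚ K * Real.log (1 / ε) := by
    simp only [Finset.sum_ite_eq, Finset.mem_univ, if_true, Finset.sum_const, Finset.card_univ,
      hcard, nsmul_eq_mul]
  have hswap : ∑ σ : K →ₐ[ℚ] ℂ, ∑ τ ∈ cls ζ (σ ζ), Real.log (max 1 ‖τ α‖) =
      ∑ τ : K →ₐ[ℚ] ℂ, ∑ σ ∈ cls ζ (τ ζ), Real.log (max 1 ‖τ α‖) := by
    apply Finset.sum_comm'
    intro σ τ
    unfold cls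
    simp only [Finset.mem_filter, Finset.mem_univ, true_and, and_true]
    exact eq_comm
  have e3 : ∑ σ : K →ₐ[ℚ] ℂ, ∑ τ ∈ cls ζ (σ ζ),
      (Real.log (max 1 ‖σ α‖) + Real.log (max 1 ‖τ α‖) + 2 * ε) =
      2 * nn K m * lam α + 2 * ε * (finrank ℚ K * nn K m) := by
    simp only [Finset.sum_add_distrib]
    rw [hswap]
    simp only [Finset.sum_const, nsmul_eq_mul, card_cls hC.hm hC.hζ, Finset.card_univ, hcard,
      ← Finset.mul_sum]
    unfold lam
    ring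
  have e5 : EP ζ α (fun _ => ε) 1 1 1 1 = ∑ σ : K →ₐ[ℚ] ℂ, ∑ τ : K →ₐ[ℚ] ℂ,
      (if (σ ζ) ^ 1 = (τ ζ) ^ 1 then
        -Real.log ‖1 - ww α (fun _ => ε) σ ^ 1 * starRingEnd ℂ (ww α (fun _ => ε) τ ^ 1)‖
        else 0) := by
    unfold EP
    rfl
  rw [e5]
  refine hsum.trans ?_
  simp only [Finset.sum_add_distrib]
  rw [e2]
  have e6 : ∑ σ : K →ₐ[ℚ] ℂ, ∑ τ : K →ₐ[ℚ] ℂ, (if σ ζ = τ ζ then (-Real.log ‖σ α - τ α‖ +
        (Real.log (max 1 ‖σ α‖) + Real.log (max 1 ‖τ α‖) + 2 * ε)) else 0) =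
      -SD ζ α + (2 * nn K m * lam α + 2 * ε * (finrank ℚ K * nn K m)) := by
    rw [← e3]
    unfold SD
    rw [← Finset.sum_neg_distrib, ← Finset.sum_add_distrib]
    refine Finset.sum_congr rfl fun σ _ => ?_
    rw [hcl σ, Finset.sum_add_distrib, Finset.sum_neg_distrib]
  rw [e6]
  linarith

/-- contractions: constant factors -/
lemma anaD {m : ℕ} {ζ α : K} (hC : Ctx2 m ζ α) {κ : ℝ} (hκ0 : 0 < κ) (hκ1 : κ ≤ 1) :
    ∃ ε : (K →ₐ[ℚ] ℂ) → ℝ, (∀ σ, 0 < ε σ ∧ ε σ ≤ 1 / 2) ∧ (∀ σ τ, σ α = τ α → ε σ = ε τ) ∧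
    ∑ σ, ε σ ≤ Nat.totient m * κ ∧
    EP ζ α ε 1 1 1 1 ≤ finrank ℚ K *
      (3 * (1 + max 0 (Bd m ζ α) + 2 * (lam α / Nat.totient m)) * (1 + Real.log (1 / κ))) := by
  have hcard : Fintype.card (K →ₐ[ℚ] ℂ) = finrank ℚ K := AlgHom.card ℚ K ℂ
  have hφ : (0:ℝ) < Nat.totient m := by exact_mod_cast Nat.totient_pos.mpr hC.hm
  have hn1 := one_le_nn hC.hm hC.hζ (K := K)
  have hN : (0:ℝ) < finrank ℚ K := by exact_mod_cast (finrank_pos : 0 < finrank ℚ K)
  have hnN : nn K m * Nat.totient m = finrank ℚ K := by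
    unfold nn; field_simp
  set n := nn K m with hn
  set N : ℝ := (finrank ℚ K : ℝ) with hNdef
  have hn0 : 0 < n := by linarith
  set ε : ℝ := κ / (2 * n) with hε
  have hε0 : 0 < ε := by positivity
  have hε2 : ε ≤ 1 / 2 := by
    rw [hε, div_le_div_iff₀ (by positivity) (by norm_num)]
    nlinarith
  refine ⟨fun _ => ε, fun _ => ⟨hε0, hε2⟩, fun _ _ _ => rfl, ?_, ?_⟩
  · rw [Finset.sum_const, Finset.card_univ, hcard, nsmul_eq_mul, ← hNdef, ← hnN, hε]
    have e : n * (Nat.totient m : ℝ) * (κ / (2 * n)) = Nat.totient m * κ / 2 := by field_simp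
    rw [e]
    have : 0 ≤ Nat.totient m * κ := by positivity
    linarith
  · refine (EP_le_SD hC hε0 hε2).trans ?_
    rw [← hNdef, ← hn]
    have hlogκ : 0 ≤ Real.log (1 / κ) := Real.log_nonneg (by rw [le_div_iff₀ hκ0]; linarith)
    have e1 : Real.log (1 / ε) = Real.log 2 + Real.log n + Real.log (1 / κ) := by
      rw [hε, ← Real.log_mul (by norm_num) hn0.ne', ← Real.log_mul (by positivity) (by positivity)]
      congr 1
      field_simp
    have e2 : 2 * ε * (N * n) = κ * N := by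
      rw [hε]; field_simp
    have h1 : N * Real.log n - SD ζ α ≤ N * max 0 (Bd m ζ α) := by
      have h2 : N * Bd m ζ α = N * Real.log n - SD ζ α := by
        unfold Bd
        rw [← hn, ← hNdef]
        field_simp
      rw [← h2]
      exact mul_le_mul_of_nonneg_left (le_max_right _ _) hN.le
    have e4 : 2 * n * lam α = N * (2 * (lam α / Nat.totient m)) := by
      rw [← hnN]; field_simp
    rw [e1, e2, e4]
    have hl := lam_nonneg α
    set l := lam α / Nat.totient m with hldef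
    have hl0 : 0 ≤ l := div_nonneg hl hφ.le
    set b := max 0 (Bd m ζ α) with hb
    have hb0 : 0 ≤ b := le_max_left _ _
    have h3 := Real.log_two_lt_d9
    have h5 : 0 ≤ N * Real.log (1 / κ) := by positivity
    have h6 : 0 ≤ N * (b + 2 * l) * Real.log (1 / κ) := by positivity
    have h7 : κ * N ≤ N := by nlinarith
    have h8 : 0 ≤ N * b := by positivity
    have h9 : 0 ≤ N * l := by positivity
    nlinarith

end

/-- the bound over a number field -/
theorem kthD (hopt : S_OPT) (hh1 : T_H1) (hh2 : T_H2) (hfx : T_FX) :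
    ∃ c : ℝ, 0 < c ∧ ∀ (K : Type) [Field K] [NumberField K] (m : ℕ) (ζ α : K),
      Ctx2 m ζ α → UT m ζ α → SQ m ζ α →
        c / (1 + max 0 (Bd m ζ α)) ^ 6 ≤ lam α / Nat.totient m := by
  obtain ⟨c0, hc0, hO⟩ := hopt
  set C : ℝ := 3 with hCdef
  have hC1 : (1:ℝ) ≤ C := by norm_num [hCdef]
  set t : ℝ := max 1 (2 * 7 ^ 6 * C ^ 7 / c0) with ht
  have ht1 : 1 ≤ t := le_max_left _ _
  have ht2 : 2 * 7 ^ 6 * C ^ 7 / c0 ≤ t := le_max_right _ _
  set c1 : ℝ := c0 / (2 * C ^ 6 * (7 * t) ^ 6) with hc1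
  have hC0 : 0 < C := by linarith
  have ht0 : 0 < t := by linarith
  have hc1pos : 0 < c1 := by rw [hc1]; positivity
  refine ⟨min 1 (c1 / 3 ^ 6), by positivity, ?_⟩
  intro K _ _ m ζ α hCtx hut hsq
  set Mp := max 0 (Bd m ζ α) with hMpdef
  have hMp : 0 ≤ Mp := le_max_left _ _
  have hφ : (0:ℝ) < Nat.totient m := by exact_mod_cast Nat.totient_pos.mpr hCtx.hm
  have hlam := lam_nonneg α
  have hl0 : 0 ≤ lam α / Nat.totient m := div_nonneg hlam hφ.le
  have hpow : 1 ≤ (1 + Mp) ^ 6 := one_le_pow₀ (by linarith)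
  by_cases hbig : 1 ≤ lam α / Nat.totient m
  · refine le_trans ?_ hbig
    rw [div_le_one (by positivity)]
    exact (min_le_left _ _).trans hpow
  push Not at hbig
  set B : ℝ := 3 * (1 + Mp) with hB
  have hB1 : 1 ≤ B := by linarith
  have hB0 : 0 < B := by linarith
  have htB : 1 ≤ t * B := by nlinarith
  set κ : ℝ := 1 / (t * B) ^ 7 with hκ
  have hκ0 : 0 < κ := by positivity
  have hκ1 : κ ≤ 1 := by
    rw [hκ, div_le_one (by positivity)]
    exact one_le_pow₀ htB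
  obtain ⟨ε, hε, hcomp, hη, hE⟩ := anaD hCtx hκ0 hκ1
  have hBle : 1 + Mp + 2 * (lam α / Nat.totient m) ≤ B := by linarith
  have hlogκ : 0 ≤ Real.log (1 / κ) := Real.log_nonneg (by rw [le_div_iff₀ hκ0]; linarith)
  set R : ℝ := C * B * (1 + Real.log (1 / κ)) with hR
  have hR1 : 1 ≤ R := by
    have h1 : 1 ≤ C * B := by nlinarith
    have h2 : C * B ≤ C * B * (1 + Real.log (1 / κ)) :=
      le_mul_of_one_le_right (by positivity) (by linarith)
    linarith
  have hE' : EP ζ α ε 1 1 1 1 ≤ finrank ℚ K * R := by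
    refine hE.trans ?_
    apply mul_le_mul_of_nonneg_left _ (Nat.cast_nonneg _)
    rw [hR]
    apply mul_le_mul_of_nonneg_right _ (by linarith)
    exact mul_le_mul_of_nonneg_left hBle hC0.le
  have hη' : (∑ σ, ε σ) / Nat.totient m ≤ κ * (C * B) := by
    rw [div_le_iff₀ hφ]
    refine hη.trans ?_
    have h1 : 1 ≤ C * B := by nlinarith
    have h2 : κ ≤ κ * (C * B) := le_mul_of_one_le_right hκ0.le h1
    nlinarith
  have hε0 : 0 ≤ ∑ σ, ε σ := Finset.sum_nonneg fun σ _ => (hε σ).1.le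
  have hμ0 : 0 ≤ (lam α + ∑ σ, ε σ) / Nat.totient m := div_nonneg (by linarith) hφ.le
  have hmain := hO R ((lam α + ∑ σ, ε σ) / Nat.totient m) (ee m ζ α) (fun p => p ^ 2 ∣ m) hR1 hμ0
    (fun p hp => Pool.Agent.Y947.RL2.one_le_ee2 hfx hCtx hsq hp)
    (fun p hp hbad => hh2 K m ζ α hCtx ε hε hcomp R hE' p hp hbad (hsq p hp hbad))
    (fun P hP a ha => hh1 K m ζ α hCtx hut ε hε hcomp R hE' P hP a ha)
  rw [add_div (lam α)] at hmain
  have hfin := real_step (ℓ := 7 * t) hc0 hC1 hB1 ht1 ht2 hκ hR hη' hmain rfl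
  refine le_trans ?_ hfin
  rw [← hc1, hB, mul_pow, ← div_div]
  apply div_le_div_of_nonneg_right _ (by positivity)
  exact min_le_right _ _

end Pool.Agent.X184.RD
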