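import Mathlib
import Pool.Agent.X184.RD.A
import Pool.Agent.X184.Leh.D2

/-!
# The relative Lehmer problem and the relative discriminant: polynomials
-/

set_option autoImplicit false

open Finset Polynomial Module Pool.Agent.H388SL Pool.Agent.Y947.DL Pool.Agent.Y947.RL

namespace Pool.Agent.X184.RD

/-- the discriminant of a monic complex polynomial as a product over the zeros -/
lemma discr_absC {f : ℂ[X]} (hm : f.Monic) (hd : 0 < f.natDegree) :
    ‖f.discr‖ = (f.roots.map fun z => ‖(derivative f).eval z‖).prod := by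
  have h1 := resultant_deriv (f := f) (natDegree_pos_iff_degree_pos.mp hd)
  have h3 := resultant_eq_prod_eval f (derivative f) (f.natDegree - 1)
    (natDegree_derivative_le f) (IsAlgClosed.splits _)
  rw [h3, hm.leadingCoeff] at h1
  have h4 := congrArg norm h1
  rw [norm_mul, norm_mul, norm_mul, norm_pow, norm_one, norm_pow, norm_neg, norm_one, one_pow,
    one_pow, one_mul, one_mul, one_mul] at h4
  rw [← h4]
  have h6 := map_multiset_prod (normHom : ℂ →*₀ ℝ) (f.roots.map (derivative f).eval)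
  rw [Multiset.map_map] at h6
  exact h6

/-- the discriminant of a product of linear factors -/
lemma log_discr_prod {ι : Type*} (S : Finset ι) (hS : S.Nonempty) (g : ι → ℂ)
    (hg : Set.InjOn g S) :
    Real.log ‖(∏ i ∈ S, (X - C (g i)) : ℂ[X]).discr‖ = ∑ i ∈ S, ∑ j ∈ S, Real.log ‖g i - g j‖ := by
  classical
  have hm : (∏ i ∈ S, (X - C (g i)) : ℂ[X]).Monic := monic_prod_of_monic _ _ fun i _ => monic_X_sub_C _
  have hd : (∏ i ∈ S, (X - C (g i)) : ℂ[X]).natDegree = S.card := by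
    rw [natDegree_prod_of_monic _ _ fun i _ => monic_X_sub_C _]
    simp
  have hroots : (∏ i ∈ S, (X - C (g i)) : ℂ[X]).roots = S.val.map g := by
    rw [Finset.prod_eq_multiset_prod]
    have e : (Multiset.map (fun i => (X - C (g i) : ℂ[X])) S.val) =
        Multiset.map (fun a : ℂ => X - C a) (Multiset.map g S.val) := by
      rw [Multiset.map_map]; rfl
    rw [e, Polynomial.roots_multiset_prod_X_sub_C]
  rw [discr_absC hm (by rw [hd]; exact Finset.card_pos.mpr hS), hroots, Multiset.map_map,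
    ← Finset.prod_eq_multiset_prod]
  have hne : ∀ i ∈ S, ∀ j ∈ S.erase i, ‖g i - g j‖ ≠ 0 := by
    intro i hi j hj
    rw [norm_ne_zero_iff, sub_ne_zero]
    intro h
    exact (Finset.ne_of_mem_erase hj) (hg hi (Finset.mem_of_mem_erase hj) h).symm
  have e1 : ∀ i ∈ S, ((fun z => ‖(derivative (∏ i ∈ S, (X - C (g i)) : ℂ[X])).eval z‖) ∘ g) i =
      ∏ j ∈ S.erase i, ‖g i - g j‖ := by
    intro i hi
    rw [Function.comp_apply, ← norm_prod]
    congr 1
    rw [Polynomial.derivative_prod_finset, Polynomial.eval_finsetSum]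
    rw [Finset.sum_eq_single i]
    · rw [Polynomial.eval_mul, Polynomial.eval_prod]
      simp
    · intro j _ hj
      rw [Polynomial.eval_mul, Polynomial.eval_prod]
      rw [Finset.prod_eq_zero (i := i)]
      · simp
      · simp [Ne.symm hj, hi]
      · simp
    · intro h
      exact absurd hi h
  rw [Finset.prod_congr rfl e1, Real.log_prod fun i hi => Finset.prod_ne_zero_iff.mpr (hne i hi)]
  refine Finset.sum_congr rfl fun i hi => ?_
  rw [Real.log_prod (hne i hi), ← Finset.add_sum_erase _ _ hi, sub_self, norm_zero,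
    Real.log_zero, zero_add]

/-- the discriminant of `g (X ^ q)` -/
lemma discr_expandC {q : ℕ} (hq : 0 < q) {g : ℂ[X]} (hm : g.Monic) (hd : 0 < g.natDegree) :
    ‖(expand ℂ q g).discr‖ =
      (q : ℝ) ^ (q * g.natDegree) * ‖g.coeff 0‖ ^ (q - 1) * ‖g.discr‖ ^ q := by
  have hem : (expand ℂ q g).Monic := by
    rw [Monic, leadingCoeff_expand hq]; exact hm
  have hed : 0 < (expand ℂ q g).natDegree := by
    rw [natDegree_expand]; exact Nat.mul_pos hd hq
  rw [discr_absC hem hed, discr_absC hm hd]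
  have hex : ∀ w : ℂ, ∃ r : ℂ, r ^ q = w := fun w => IsAlgClosed.exists_pow_nat_eq w hq
  choose r hr using hex
  rw [Leh.roots_expand hq hm r hr, Multiset.map_bind, Multiset.prod_bind]
  have hkey : ∀ w : ℂ, (Multiset.map (fun z => ‖eval z (derivative (expand ℂ q g))‖)
      (Multiset.map (fun ζ => ζ * r w) (nthRootsFinset q (1:ℂ)).val)).prod =
      (q:ℝ) ^ q * ‖w‖ ^ (q - 1) * ‖eval w (derivative g)‖ ^ q := by
    intro w
    rw [Multiset.map_map]
    have h1 : (Multiset.map ((fun z => ‖eval z (derivative (expand ℂ q g))‖) ∘ fun ζ => ζ * r w)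
        (nthRootsFinset q (1:ℂ)).val).prod =
        ∏ ζ ∈ nthRootsFinset q (1:ℂ), ((q:ℝ) * ‖r w‖ ^ (q - 1) * ‖eval w (derivative g)‖) := by
      rw [Finset.prod_eq_multiset_prod]
      congr 1
      refine Multiset.map_congr rfl fun ζ hζ => ?_
      have hζ' : ζ ∈ nthRootsFinset q (1:ℂ) := hζ
      have hζq : ζ ^ q = 1 := (mem_nthRootsFinset hq 1).mp hζ'
      rw [Function.comp_apply, derivative_expand]
      simp only [eval_mul, expand_eval, eval_pow, eval_X, mul_pow, hζq, hr, one_mul, norm_mul,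
        norm_pow, Pool.Agent.Y947.DL.norm_of_mem_grid hq hζ', one_pow]
      rw [eval_natCast, Complex.norm_natCast]
      ring
    rw [h1, Finset.prod_const, Pool.Agent.Y947.DL.card_grid hq, mul_pow, mul_pow]
    congr 2
    rw [← pow_mul, mul_comm (q - 1) q, pow_mul, ← norm_pow, hr]
  rw [Multiset.map_congr rfl fun w _ => hkey w]
  rw [Multiset.prod_map_mul, Multiset.prod_map_mul, Multiset.map_const', Multiset.prod_replicate,
    Multiset.prod_map_pow, Multiset.prod_map_pow, ← pow_mul]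
  have hcard : Multiset.card g.roots = g.natDegree :=
    (IsAlgClosed.splits g).natDegree_eq_card_roots.symm
  have hnorm : (Multiset.map (fun w : ℂ => ‖w‖) g.roots).prod = ‖g.coeff 0‖ := by
    have h4 := (IsAlgClosed.splits g).eq_prod_roots_of_monic hm
    have h2 : ‖g.coeff 0‖ = ‖eval 0 g‖ := by rw [Polynomial.coeff_zero_eq_eval_zero]
    rw [h2]
    conv_rhs => rw [h4]
    rw [Polynomial.eval_multiset_prod, Multiset.map_map]
    have h6 := map_multiset_prod (normHom : ℂ →*₀ ℝ)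
      (Multiset.map ((fun p : ℂ[X] => eval 0 p) ∘ fun a => X - C a) g.roots)
    rw [Multiset.map_map] at h6
    have h7 : ‖(Multiset.map ((fun p : ℂ[X] => eval 0 p) ∘ fun a => X - C a) g.roots).prod‖ =
      (normHom : ℂ →*₀ ℝ)
      (Multiset.map ((fun p : ℂ[X] => eval 0 p) ∘ fun a => X - C a) g.roots).prod := rfl
    rw [h7, h6]
    congr 1
    refine Multiset.map_congr rfl fun w _ => ?_
    simp [normHom]
  rw [hcard, hnorm]

/-- the mean of the logarithms of the discriminants -/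
noncomputable def mdisc (m : ℕ) (F : ℤ[X][X]) : ℝ := meanP m (fun ω => Real.log ‖(sp ω F).discr‖)

/-- the defect of the discriminants -/
noncomputable def BF (m : ℕ) (F : ℤ[X][X]) : ℝ :=
  Real.log F.natDegree - mdisc m F / F.natDegree

section
variable {K : Type} [Field K] [NumberField K]

lemma cls_nonempty {m : ℕ} (hm : 0 < m) {ζ : K} (hζ : IsPrimitiveRoot ζ m) {ω : ℂ}
    (hω : IsPrimitiveRoot ω m) : (cls ζ ω).Nonempty := by
  obtain ⟨τ, hτ⟩ := (Y65.RL.tr K m ζ hm hζ).2.1 ω hω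
  exact ⟨τ, by simp [cls, hτ]⟩

lemma mdisc_eq {m : ℕ} {ζ α : K} {F : ℤ[X][X]} (hC : Ctx2 m ζ α)
    (hprod : ∀ ω : ℂ, IsPrimitiveRoot ω m → sp ω F = ∏ τ ∈ cls ζ ω, (X - C (τ α))) :
    mdisc m F = SD ζ α / Nat.totient m := by
  classical
  unfold mdisc meanP
  congr 1
  have h1 : ∀ ω ∈ primitiveRoots m ℂ, Real.log ‖(sp ω F).discr‖ =
      ∑ σ ∈ cls ζ ω, ∑ τ ∈ cls ζ (σ ζ), Real.log ‖σ α - τ α‖ := by
    intro ω hω
    have hω' := (mem_primitiveRoots hC.hm).mp hω
    rw [hprod ω hω', log_discr_prod _ (cls_nonempty hC.hm hC.hζ hω') (fun τ : K →ₐ[ℚ] ℂ => τ α)]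
    · refine Finset.sum_congr rfl fun σ hσ => ?_
      have h2 : σ ζ = ω := by simpa [cls] using hσ
      rw [h2]
    · intro σ hσ τ hτ h
      have h2 : σ ζ = ω := by simpa [cls] using hσ
      have h3 : τ ζ = ω := by simpa [cls] using hτ
      exact hC.gen σ τ (h2.trans h3.symm) h
  rw [Finset.sum_congr rfl h1]
  unfold SD
  rw [← Finset.sum_fiberwise_of_maps_to (s := (Finset.univ : Finset (K →ₐ[ℚ] ℂ)))
    (t := primitiveRoots m ℂ) (g := fun τ => τ ζ)]
  · rfl
  · intro τ _
    rw [mem_primitiveRoots hC.hm]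
    exact hC.hζ.map_of_injective (f := τ) τ.toRingHom.injective

lemma natDegree_sp {A : Type*} [CommRing A] [Nontrivial A] (ω : A) {F : ℤ[X][X]} (h : F.Monic) :
    (sp ω F).natDegree = F.natDegree := h.natDegree_map _

lemma exists_prim {m : ℕ} (hm : 0 < m) : ∃ ω : ℂ, IsPrimitiveRoot ω m :=
  ⟨_, Complex.isPrimitiveRoot_exp m hm.ne'⟩

lemma natDegree_nn {m : ℕ} {ζ α : K} {F : ℤ[X][X]} (hF : F.Monic) (hC : Ctx2 m ζ α)
    (hprod : ∀ ω : ℂ, IsPrimitiveRoot ω m → sp ω F = ∏ τ ∈ cls ζ ω, (X - C (τ α))) :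
    (F.natDegree : ℝ) = nn K m := by
  obtain ⟨ω, hω⟩ := exists_prim hC.hm
  obtain ⟨σ, hσ⟩ := cls_nonempty hC.hm hC.hζ hω
  have h2 : σ ζ = ω := by simpa [cls] using hσ
  rw [← card_cls hC.hm hC.hζ σ, h2, ← natDegree_sp ω hF, hprod ω hω,
    natDegree_prod_of_monic _ _ fun i _ => monic_X_sub_C _]
  simp

lemma BF_eq {m : ℕ} {ζ α : K} {F : ℤ[X][X]} (hF : F.Monic) (hC : Ctx2 m ζ α)
    (hprod : ∀ ω : ℂ, IsPrimitiveRoot ω m → sp ω F = ∏ τ ∈ cls ζ ω, (X - C (τ α))) :
    BF m F = Bd m ζ α := by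
  have hφ : (0:ℝ) < Nat.totient m := by exact_mod_cast Nat.totient_pos.mpr hC.hm
  have hN : (0:ℝ) < finrank ℚ K := by exact_mod_cast (finrank_pos : 0 < finrank ℚ K)
  unfold BF Bd
  rw [natDegree_nn hF hC hprod, mdisc_eq hC hprod]
  congr 1
  unfold nn
  field_simp

lemma SD_twist {m : ℕ} (hm : 0 < m) {ζ : K} (hζ : IsPrimitiveRoot ζ m) (α : K) (k : ℕ) :
    SD ζ (ζ ^ k * α) = SD ζ α := by
  unfold SD
  refine Finset.sum_congr rfl fun σ _ => Finset.sum_congr rfl fun τ hτ => ?_
  have h2 : τ ζ = σ ζ := by simpa [cls] using hτ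
  have h3 : ‖σ ζ‖ = 1 :=
    (hζ.map_of_injective (f := σ) σ.toRingHom.injective).norm'_eq_one hm.ne'
  rw [map_mul, map_mul, map_pow, map_pow, h2, ← mul_sub, norm_mul, norm_pow, h3, one_pow, one_mul]

lemma Bd_twist {m : ℕ} (hm : 0 < m) {ζ : K} (hζ : IsPrimitiveRoot ζ m) (α : K) (k : ℕ) :
    Bd m ζ (ζ ^ k * α) = Bd m ζ α := by
  unfold Bd
  rw [SD_twist hm hζ]

end

/-- the bound for polynomials such that no quotient of different zeros of the same polynomial is a
root of unity -/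
theorem fin_twoD {c : ℝ}
    (hk : ∀ (K : Type) [Field K] [NumberField K] (m : ℕ) (ζ α : K),
      Ctx2 m ζ α → UT m ζ α → SQ m ζ α →
        c / (1 + max 0 (Bd m ζ α)) ^ 6 ≤ lam α / Nat.totient m)
    (hfk : T_FK) (hred : T_RED) (hmea : S_MEA) (hfxe : T_FXE) (hsc : T_SC)
    (hutk : T_UTK) (htwa : T_TWA) (hctw : T_CTW) :
    ∀ (m : ℕ) (F : ℤ[X][X]), Hyp2 m F →
      c / (1 + max 0 (BF m F)) ^ 6 ≤ meanP m (fun ω => Real.log (sp ω F).mahlerMeasure) := by
  intro m
  induction m using Nat.strong_induction_on with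
  | _ m ih =>
    intro F hF
    have hm := hF.hm
    obtain ⟨K, _, _, ζ, α, hC, hprod⟩ := hfk m F hF
    by_cases hsq : SQ m ζ α
    · obtain ⟨k, hut, hsame⟩ := hutk K m ζ α hC
      obtain ⟨hC', hlam, -⟩ := hctw K m ζ α hC k
      have hsq' : SQ m ζ (ζ ^ k * α) := by
        intro p hp hpm
        obtain ⟨u, hu, hnot⟩ := hsq p hp hpm
        exact ⟨u, hu, fun h => hnot (hsame p hp hpm u hu h)⟩
      have h1 := hk K m ζ (ζ ^ k * α) hC' hut hsq'
      rw [hlam, Bd_twist hm hC.hζ] at h1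
      rw [mean_mahler hm hC.hζ hprod, BF_eq hF.monic hC hprod]
      exact h1
    · unfold SQ at hsq
      push Not at hsq
      obtain ⟨p, hp, hpm, hfix⟩ := hsq
      obtain ⟨k, hk2⟩ := htwa K m ζ α hC p hp hpm hfix
      obtain ⟨hF1, hinv, hpr⟩ := hsc m F hF k
      obtain ⟨hC', -, -⟩ := hctw K m ζ α hC k
      have hprod1 := hpr K ζ α hprod
      have hBF : BF m (F.scaleRoots (X ^ k)) = BF m F := by
        rw [BF_eq hF1.monic hC' hprod1, BF_eq hF.monic hC hprod, Bd_twist hm hC.hζ]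
      set F1 := F.scaleRoots (X ^ k) with hF1def
      have hcop : ∀ u ∈ Gset m p, u.Coprime m := by
        intro u hu
        unfold Gset at hu
        exact (Finset.mem_filter.mp hu).2.1
      have h2 : ∀ ω : ℂ, IsPrimitiveRoot ω m → ∀ u ∈ Gset m p, sp (ω ^ u) F1 = sp ω F1 := by
        intro ω hω u hu
        rw [hprod1 ω hω, hprod1 (ω ^ u) (hω.pow_of_coprime u (hcop u hu)),
          hfxe K m ζ (ζ ^ k * α) hC' u (hcop u hu) (hk2 u hu) ω hω]
      obtain ⟨F', hF', heq⟩ := hred m F1 hF1 p hp hpm h2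
      have hlt : m / p < m := Nat.div_lt_self hm hp.one_lt
      have h3 := ih (m / p) hlt F' hF'
      rw [← hmea m p hm hp hpm] at h3
      have e1 : BF (m / p) F' = BF m F := by
        rw [← hBF]
        have e2 : mdisc (m / p) F' = mdisc m F1 := by
          unfold mdisc
          rw [← hmea m p hm hp hpm]
          apply Pool.Agent.Y947.RL2.meanP_congr hm
          intro ω hω
          rw [heq ω hω]
        have e3 : F'.natDegree = F1.natDegree := by
          obtain ⟨ω, hω⟩ := exists_prim hm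
          rw [← natDegree_sp (ω ^ p) hF'.monic, ← natDegree_sp ω hF1.monic, heq ω hω]
        unfold BF
        rw [e2, e3]
      have e2 : meanP m (fun ω => Real.log (sp (ω ^ p) F').mahlerMeasure) =
          meanP m (fun ω => Real.log (sp ω F).mahlerMeasure) := by
        apply Pool.Agent.Y947.RL2.meanP_congr hm
        intro ω hω
        rw [heq ω hω, (hinv ω hω).1]
      rw [e1, e2] at h3
      exact h3

end Pool.Agent.X184.RD
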