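import Mathlib
import Pool.Agent.X184.RD.B
import Pool.Agent.Y994.RL.Exp
import Pool.Agent.Y947.RL2.Alg
import Pool.Agent.Y433.RL.Hgt
import Pool.Agent.Y858.RL.Rep
import Pool.Agent.Y235.RL.Cnj
import Pool.Agent.Y932.RL.Tow
import Pool.Agent.X184.Rel.F

/-!
# The relative Lehmer problem and the relative discriminant: the final bound
-/

set_option autoImplicit false

open Finset Polynomial Module Pool.Agent.Y947.DL Pool.Agent.Y947.RL IntermediateField

namespace Pool.Agent.X184.RD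

lemma discr_map_monic {R S : Type*} [CommRing R] [CommRing S] [Nontrivial S] (φ : R →+* S)
    {f : R[X]} (hm : f.Monic) (hd : 0 < f.natDegree) : (f.map φ).discr = φ f.discr := by
  have hnd : (f.map φ).natDegree = f.natDegree := hm.natDegree_map φ
  have h1 := resultant_deriv (f := f) (natDegree_pos_iff_degree_pos.mp hd)
  have h2 := resultant_deriv (f := f.map φ)
    (natDegree_pos_iff_degree_pos.mp (by rw [hnd]; exact hd))
  have h3 := congrArg φ h1
  rw [← resultant_map_map, ← derivative_map] at h3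
  rw [hnd, h3, (hm.map φ).leadingCoeff, hm.leadingCoeff] at h2
  rw [map_mul, map_mul, map_one, map_pow, map_neg, map_one, mul_one] at h2
  have h4 : IsUnit ((-1 : S) ^ (f.natDegree * (f.natDegree - 1) / 2)) :=
    (isUnit_one.neg).pow _
  exact (h4.mul_left_cancel h2).symm

/-- the dichotomy -/
theorem exp4 (m : ℕ) (F : ℤ[X][X]) (hF : Hyp3 m F) : Hyp2 m F ∨
    ∃ (G : ℤ[X][X]) (e : ℕ), Hyp3 m G ∧ 0 < e ∧ G.natDegree < F.natDegree ∧
      ∀ ω : ℂ, IsPrimitiveRoot ω m → sp ω F = expand ℂ e (sp ω G) := by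
  classical
  by_cases hq : ∀ ω : ℂ, IsPrimitiveRoot ω m → ∀ z w : ℂ,
    (sp ω F).eval z = 0 → (sp ω F).eval w = 0 → ∀ k : ℕ, 0 < k → z ^ k = w ^ k → z = w
  · exact Or.inl ⟨hF.hm, hF.monic, fun ω hω => Y994.RL.Exp.irr_small hF hω, hF.h0, hF.hroot, hq⟩
  right
  push Not at hq
  obtain ⟨ω₀, hω₀, z, w, hz, hw, k, hk, hzw, hne⟩ := hq
  have hm := hF.hm
  have hz0 : z ≠ 0 := by
    rintro rfl
    exact hF.h0 ω₀ hω₀ hz
  -- the quotient
  set ξ : ℂ := w / z with hξ
  have hξk : ξ ^ k = 1 := by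
    rw [hξ, div_pow, ← hzw, div_self (pow_ne_zero _ hz0)]
  have hξ1 : ξ ≠ 1 := by
    intro h
    rw [hξ, div_eq_one_iff_eq hz0] at h
    exact hne h.symm
  set e := orderOf ξ with he
  have he0 : 0 < e := orderOf_pos_iff.2 (isOfFinOrder_iff_pow_eq_one.2 ⟨k, hk, hξk⟩)
  have he1 : e ≠ 1 := fun h => hξ1 (orderOf_eq_one_iff.1 h)
  have hwz : w = ξ * z := by
    rw [hξ, div_mul_cancel₀ _ hz0]
  -- everything over the field of all roots of unity
  have hA := Y994.RL.Exp.prim_QAb hm hω₀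
  set ωA : QAb := ⟨ω₀, Y994.RL.Exp.mem_QAb hm hω₀.pow_eq_one⟩ with hωA
  set ξA : QAb := ⟨ξ, Y994.RL.Exp.mem_QAb hk hξk⟩ with hξA
  have hirr := hF.irr ωA hA
  have hmon := Y994.RL.Exp.sp_monic ωA hF.monic
  have hmapC : (sp ωA F).map (algebraMap QAb ℂ) = sp ω₀ F := Y994.RL.Exp.sp_map _ _ _
  have haz : aeval z (sp ωA F) = 0 := by
    rw [aeval_def, ← eval_map, hmapC, hz]
  have haw : aeval w (sp ωA F) = 0 := by
    rw [aeval_def, ← eval_map, hmapC, hw]
  have hmp : sp ωA F = minpoly QAb w := minpoly.eq_of_irreducible_of_monic hirr haw hmon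
  have hsc : aeval w ((sp ωA F).scaleRoots ξA) = 0 := by
    have := scaleRoots_aeval_eq_zero (r := ξA) haz
    rw [hwz]
    exact this
  have hdvd : sp ωA F ∣ (sp ωA F).scaleRoots ξA := by
    have := minpoly.dvd QAb w hsc
    rwa [← hmp] at this
  have heq : (sp ωA F).scaleRoots ξA = sp ωA F := by
    refine eq_of_monic_of_dvd_of_natDegree_le hmon ((monic_scaleRoots_iff ξA).2 hmon) hdvd ?_
    rw [natDegree_scaleRoots]
  set D := F.natDegree with hD
  have hcoef : ∀ i, (sp ωA F).coeff i * ξA ^ (D - i) = (sp ωA F).coeff i := by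
    intro i
    have := congrArg (fun f => f.coeff i) heq
    simp only [coeff_scaleRoots, Y994.RL.Exp.sp_natDegree _ hF.monic] at this
    exact this
  have hcoef' : ∀ i, ¬ e ∣ D - i → aeval ω₀ (F.coeff i) = 0 := by
    intro i hi
    have h1 := hcoef i
    have h2 : (sp ωA F).coeff i * (ξA ^ (D - i) - 1) = 0 := by
      rw [mul_sub, h1, mul_one, sub_self]
    rcases mul_eq_zero.1 h2 with h3 | h3
    · rw [← Y994.RL.Exp.sp_coeff, ← hmapC, coeff_map, h3, map_zero]
    · exfalso
      apply hi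
      apply orderOf_dvd_of_pow_eq_one
      have h4 : ξA ^ (D - i) = 1 := sub_eq_zero.1 h3
      have h5 := congrArg (algebraMap QAb ℂ) h4
      rw [map_pow, map_one] at h5
      exact h5
  have heD : e ∣ D := by
    by_contra hcon
    have h1 := hcoef' 0 (by simpa using hcon)
    apply hF.h0 ω₀ hω₀
    rw [← coeff_zero_eq_eval_zero, Y994.RL.Exp.sp_coeff, h1]
  have hvan : ∀ i, ¬ e ∣ i → aeval ω₀ (F.coeff i) = 0 := by
    intro i hi
    by_cases hiD : i ≤ D
    · apply hcoef'
      intro hc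
      apply hi
      have := (Nat.dvd_sub_iff_right hiD heD).1 hc
      exact this
    · rw [coeff_eq_zero_of_natDegree_lt (by omega), map_zero]
  -- degree
  have hD0 : 0 < D := by
    rw [Nat.pos_iff_ne_zero]
    intro h0
    have h1 : sp ω₀ F = 1 := by
      have h2 := Y994.RL.Exp.sp_monic ω₀ hF.monic
      refine h2.natDegree_eq_zero.1 ?_
      rw [Y994.RL.Exp.sp_natDegree _ hF.monic]
      exact h0
    rw [h1, eval_one] at hz
    exact one_ne_zero hz
  obtain ⟨D', hD'⟩ := heD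
  have hD'0 : 0 < D' := by
    rcases Nat.eq_zero_or_pos D' with h | h
    · rw [h, mul_zero] at hD'
      omega
    · exact h
  have hDlt : D' < D := by
    rw [hD']
    have : 2 ≤ e := by omega
    nlinarith
  -- the polynomial G
  set G : ℤ[X][X] := contract e F with hG
  have hGc : ∀ j, G.coeff j = F.coeff (j * e) := fun j => coeff_contract he0.ne' F j
  have hGdeg : G.natDegree ≤ D' := by
    rw [natDegree_le_iff_coeff_eq_zero]
    intro N hN
    rw [hGc]
    apply coeff_eq_zero_of_natDegree_lt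
    rw [← hD, hD', mul_comm]
    exact Nat.mul_lt_mul_of_pos_right hN he0
  have hGmon : G.Monic := by
    refine monic_of_natDegree_le_of_coeff_eq_one D' hGdeg ?_
    rw [hGc, mul_comm, ← hD']
    exact hF.monic
  have hexp : ∀ {A : Type} [CommRing A] [IsDomain A] (ω : A), IsPrimitiveRoot ω m →
      sp ω F = expand A e (sp ω G) := by
    intro A _ _ ω hω
    ext i
    rw [coeff_expand he0, Y994.RL.Exp.sp_coeff]
    split_ifs with hi
    · rw [Y994.RL.Exp.sp_coeff, hGc, Nat.div_mul_cancel hi]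
    · exact Y994.RL.Exp.vanish hm hω₀ (hvan i hi) hω
  have hGev : ∀ ω : ℂ, IsPrimitiveRoot ω m → ∀ y : ℂ, (sp ω F).eval y = (sp ω G).eval (y ^ e) := by
    intro ω hω y
    rw [hexp ω hω, expand_eval]
  refine ⟨G, e, ⟨hm, hGmon, ?_, ?_, ?_⟩, he0, ?_, ?_⟩
  · intro ω hω
    have h1 := hF.irr ω hω
    rw [hexp ω hω] at h1
    exact of_irreducible_expand he0.ne' h1
  · intro ω hω h
    apply hF.h0 ω hω
    rw [hGev ω hω, zero_pow he0.ne']
    exact h
  · intro ω hω y hy n hn hyn
    obtain ⟨x, hx⟩ := IsAlgClosed.exists_pow_nat_eq y he0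
    refine hF.hroot ω hω x ?_ (e * n) (Nat.mul_pos he0 hn) ?_
    · rw [hGev ω hω, hx, hy]
    · rw [pow_mul, hx, hyn]
  · exact lt_of_le_of_lt hGdeg hDlt
  · intro ω hω
    exact hexp ω hω

lemma natDegree_pos3 {m : ℕ} {F : ℤ[X][X]} (hF : Hyp3 m F) : 0 < F.natDegree := by
  obtain ⟨ω, hω⟩ := exists_prim hF.hm
  have h1 := (hF.irr _ (Y994.RL.Exp.prim_QAb hF.hm hω)).natDegree_pos
  rwa [Y994.RL.Exp.sp_natDegree _ hF.monic] at h1

/-- the polynomials have nonzero discriminants -/
lemma discr_ne3 {m : ℕ} {F : ℤ[X][X]} (hF : Hyp3 m F) {ω : ℂ} (hω : IsPrimitiveRoot ω m) :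
    ‖(sp ω F).discr‖ ≠ 0 := by
  have hA := Y994.RL.Exp.prim_QAb hF.hm hω
  have hmapC : (sp (⟨ω, Y994.RL.Exp.mem_QAb hF.hm hω.pow_eq_one⟩ : QAb) F).map
      (algebraMap QAb ℂ) = sp ω F := Y994.RL.Exp.sp_map _ _ _
  have hsep : (sp ω F).Separable := by
    rw [← hmapC]
    exact ((hF.irr _ hA).separable).map
  have hmon := Y994.RL.Exp.sp_monic ω hF.monic
  have hd : 0 < (sp ω F).natDegree := by
    rw [Y994.RL.Exp.sp_natDegree _ hF.monic]; exact natDegree_pos3 hF
  rw [discr_absC hmon hd]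
  apply Multiset.prod_ne_zero
  intro h
  rw [Multiset.mem_map] at h
  obtain ⟨z, hz, h0⟩ := h
  have h1 : aeval z (sp ω F) = 0 := by
    have := (mem_roots hmon.ne_zero).mp hz
    rw [coe_aeval_eq_eval]; exact this
  have h2 := hsep.aeval_derivative_ne_zero h1
  apply h2
  rw [coe_aeval_eq_eval]
  exact norm_eq_zero.mp h0

lemma BF_expand {m : ℕ} {F G : ℤ[X][X]} (hF : Hyp3 m F) (hG : Hyp3 m G) {e : ℕ} (he : 0 < e)
    (hexp : ∀ ω : ℂ, IsPrimitiveRoot ω m → sp ω F = expand ℂ e (sp ω G)) :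
    BF m G - meanP m (fun ω => Real.log (sp ω F).mahlerMeasure) / G.natDegree ≤
      BF m F - meanP m (fun ω => Real.log (sp ω F).mahlerMeasure) / F.natDegree := by
  have hm := hF.hm
  have hG0 := natDegree_pos3 hG
  have hF0 := natDegree_pos3 hF
  have hφ : (0:ℝ) < Nat.totient m := by exact_mod_cast Nat.totient_pos.mpr hm
  have hnd : F.natDegree = G.natDegree * e := by
    obtain ⟨ω, hω⟩ := exists_prim hm
    rw [← Y994.RL.Exp.sp_natDegree ω hF.monic, hexp ω hω, natDegree_expand,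
      Y994.RL.Exp.sp_natDegree ω hG.monic]
  have hg : (0:ℝ) < G.natDegree := by exact_mod_cast hG0
  have he0 : (0:ℝ) < e := by exact_mod_cast he
  set ν := meanP m (fun ω => Real.log ‖(sp ω G).coeff 0‖) with hν
  set μ := meanP m (fun ω => Real.log (sp ω F).mahlerMeasure) with hμ
  have hνμ : ν ≤ μ := by
    rw [hν, hμ]
    unfold meanP
    apply div_le_div_of_nonneg_right _ hφ.le
    apply Finset.sum_le_sum
    intro ω hω
    have hω' := (mem_primitiveRoots hm).mp hω
    rw [hexp ω hω', Y994.RL.Exp.mahler_expand he]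
    apply Real.log_le_log
    · rw [norm_pos_iff, coeff_zero_eq_eval_zero]
      exact hG.h0 ω hω'
    · have := norm_coeff_le_choose_mul_mahlerMeasure 0 (sp ω G)
      simpa using this
  have hmd : mdisc m F = e * G.natDegree * Real.log e + ((e:ℝ) - 1) * ν + e * mdisc m G := by
    have h1 : ∀ ω ∈ primitiveRoots m ℂ, Real.log ‖(sp ω F).discr‖ =
        e * G.natDegree * Real.log e + ((e:ℝ) - 1) * Real.log ‖(sp ω G).coeff 0‖ +
          e * Real.log ‖(sp ω G).discr‖ := by
      intro ω hω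
      have hω' := (mem_primitiveRoots hm).mp hω
      have hc : ‖(sp ω G).coeff 0‖ ≠ 0 := by
        rw [norm_ne_zero_iff, coeff_zero_eq_eval_zero]
        exact hG.h0 ω hω'
      rw [hexp ω hω', discr_expandC he (Y994.RL.Exp.sp_monic ω hG.monic)
        (by rw [Y994.RL.Exp.sp_natDegree _ hG.monic]; exact hG0),
        Real.log_mul (by positivity) (pow_ne_zero _ (discr_ne3 hG hω')),
        Real.log_mul (by positivity) (pow_ne_zero _ hc), Real.log_pow, Real.log_pow, Real.log_pow,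
        Y994.RL.Exp.sp_natDegree _ hG.monic, Nat.cast_sub he]
      push_cast
      ring
    unfold mdisc at *
    rw [hν]
    unfold meanP at *
    have hcard : (((primitiveRoots m ℂ).card : ℕ) : ℝ) = Nat.totient m := by
      rw [Complex.card_primitiveRoots]
    rw [Finset.sum_congr rfl h1, Finset.sum_add_distrib, Finset.sum_add_distrib, Finset.sum_const,
      nsmul_eq_mul, hcard, ← Finset.mul_sum, ← Finset.mul_sum]
    field_simp
  unfold BF
  rw [hmd, hnd]
  push_cast
  rw [Real.log_mul hg.ne' he0.ne']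
  have e1 : (e * G.natDegree * Real.log e + ((e:ℝ) - 1) * ν + e * mdisc m G) /
      ((G.natDegree : ℝ) * e) = Real.log e + ((e:ℝ) - 1) * ν / (G.natDegree * e) +
        mdisc m G / G.natDegree := by
    field_simp
  have e2 : μ / G.natDegree - μ / ((G.natDegree : ℝ) * e) = ((e:ℝ) - 1) * μ / (G.natDegree * e) := by
    field_simp
  have he1 : (1:ℝ) ≤ e := by exact_mod_cast he
  have h3 : ((e:ℝ) - 1) * ν / (G.natDegree * e) ≤ ((e:ℝ) - 1) * μ / (G.natDegree * e) := by
    apply div_le_div_of_nonneg_right _ (by positivity)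
    exact mul_le_mul_of_nonneg_left hνμ (by linarith)
  rw [e1]
  linarith

/-- the general theorem for polynomials -/
theorem fin_threeD {c : ℝ} (hc : 0 < c) (hk : ∀ (m : ℕ) (F : ℤ[X][X]), Hyp2 m F →
      c / (1 + max 0 (BF m F)) ^ 6 ≤ meanP m (fun ω => Real.log (sp ω F).mahlerMeasure)) :
    ∀ (m : ℕ) (F : ℤ[X][X]), Hyp3 m F →
      min 1 (c / 2 ^ 6) / (1 + max 0 (BF m F)) ^ 6 ≤
        meanP m (fun ω => Real.log (sp ω F).mahlerMeasure) := by
  have key : ∀ (m n : ℕ) (F : ℤ[X][X]), F.natDegree = n → Hyp3 m F → ∀ x : ℝ, 0 ≤ x →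
      BF m F - meanP m (fun ω => Real.log (sp ω F).mahlerMeasure) / F.natDegree ≤ x →
      meanP m (fun ω => Real.log (sp ω F).mahlerMeasure) < 1 →
        c / (2 + x) ^ 6 ≤ meanP m (fun ω => Real.log (sp ω F).mahlerMeasure) := by
    intro m n
    induction n using Nat.strong_induction_on with
    | _ n ih =>
      intro F hn hF x hx0 hx hμ1
      rcases exp4 m F hF with h2 | ⟨G, e, hG, he, hdeg, hexp⟩
      · refine le_trans ?_ (hk m F h2)
        have hF0 : (1:ℝ) ≤ F.natDegree := by exact_mod_cast natDegree_pos3 hF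
        have h3 : BF m F ≤ 1 + x := by
          have h4 : meanP m (fun ω => Real.log (sp ω F).mahlerMeasure) / F.natDegree ≤ 1 := by
            rw [div_le_one (by linarith)]
            linarith
          linarith
        have h5 : max 0 (BF m F) ≤ 1 + x := max_le (by linarith) h3
        have h6 : 0 ≤ max 0 (BF m F) := le_max_left _ _
        apply div_le_div_of_nonneg_left hc.le (by positivity)
        exact pow_le_pow_left₀ (by linarith) (by linarith) 6
      · have e2 : meanP m (fun ω => Real.log (sp ω F).mahlerMeasure) =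
            meanP m (fun ω => Real.log (sp ω G).mahlerMeasure) := by
          apply Pool.Agent.Y947.RL2.meanP_congr hF.hm
          intro ω hω
          rw [hexp ω hω, Y994.RL.Exp.mahler_expand he]
        have h4 := BF_expand hF hG he hexp
        have h5 := ih G.natDegree (by rw [← hn]; exact hdeg) G rfl hG x hx0
          (by rw [← e2]; exact h4.trans hx) (by rw [← e2]; exact hμ1)
        rw [e2]
        exact h5
  intro m F hF
  have hb0 : 0 ≤ max 0 (BF m F) := le_max_left _ _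
  have hpow : 1 ≤ (1 + max 0 (BF m F)) ^ 6 := one_le_pow₀ (by linarith)
  by_cases hbig : 1 ≤ meanP m (fun ω => Real.log (sp ω F).mahlerMeasure)
  · refine le_trans ?_ hbig
    rw [div_le_one (by positivity)]
    exact (min_le_left _ _).trans hpow
  push Not at hbig
  have hφ : (0:ℝ) < Nat.totient m := by exact_mod_cast Nat.totient_pos.mpr hF.hm
  have hμ0 : 0 ≤ meanP m (fun ω => Real.log (sp ω F).mahlerMeasure) := by
    unfold meanP
    apply div_nonneg _ hφ.le
    apply Finset.sum_nonneg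
    intro ω _
    apply Real.log_nonneg
    apply one_le_mahlerMeasure_of_one_le_norm_leadingCoeff
    rw [(Y994.RL.Exp.sp_monic ω hF.monic).leadingCoeff, norm_one]
  have h1 := key m F.natDegree F rfl hF (max 0 (BF m F)) hb0 (by
    have h2 : 0 ≤ meanP m (fun ω => Real.log (sp ω F).mahlerMeasure) / F.natDegree :=
      div_nonneg hμ0 (Nat.cast_nonneg _)
    have h3 := le_max_right 0 (BF m F)
    linarith) hbig
  refine le_trans ?_ h1
  have h2 : (2 + max 0 (BF m F)) ^ 6 ≤ 2 ^ 6 * (1 + max 0 (BF m F)) ^ 6 := by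
    rw [← mul_pow]
    exact pow_le_pow_left₀ (by linarith) (by linarith) 6
  calc min 1 (c / 2 ^ 6) / (1 + max 0 (BF m F)) ^ 6 ≤ c / 2 ^ 6 / (1 + max 0 (BF m F)) ^ 6 :=
        div_le_div_of_nonneg_right (min_le_right _ _) (by positivity)
    _ = c / (2 ^ 6 * (1 + max 0 (BF m F)) ^ 6) := by rw [div_div]
    _ ≤ c / (2 + max 0 (BF m F)) ^ 6 :=
        div_le_div_of_nonneg_left hc.le (by positivity) h2

/-- the bound for polynomials -/
theorem t_finD : ∃ c : ℝ, 0 < c ∧ ∀ (m : ℕ) (F : ℤ[X][X]), Hyp3 m F →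
      c / (1 + max 0 (BF m F)) ^ 6 ≤ meanP m (fun ω => Real.log (sp ω F).mahlerMeasure) := by
  have tr : S_TR := Y65.RL.tr
  have j0 : S_J0 := Y578.RL.j0
  have nv : S_NV := Y849.RL.nv
  have nrm : S_NRM := Y722.RL.nrm j0 tr
  have fr0 : S_FR0 := Y65.RL.fr0 j0 tr
  have pi : S_PI := Y692.RL.pi
  have fr1 : T_FR1 := Y947.RL2.Fr1.fr1 j0 tr pi
  have ram : S_RAM := Y692.RL.ram j0 tr
  have quo : T_QUO := Y429.RL.quo2 j0 tr
  have fx : T_FX := Y429.RL.fx2 tr
  have psd : S_PSD := Y528.RL.psdE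
  have gen : T_GEN := Y429.RL.gen2 tr
  have slf : T_SLF := Y429.RL.slf2 tr quo
  have opt : S_OPT := Y319.RL.opt
  have fxe : T_FXE := Y947.RL2.fxe2 tr
  have mea : S_MEA := Y70.RL.mea
  have h1 : T_H1 := Y564.RL.h1b psd gen slf fr0 fr1 ram nrm nv tr fx
  have h2 : T_H2 := Y730.RL.H2.h2b psd gen slf ram fx
  have fk : T_FK := Y730.RL.FK.fk2 tr
  have red : T_RED := Y947.RL2.red2
  have utk : T_UTK := Y968.RL.utk tr
  have twa : T_TWA := Y162.RL.twa tr
  have ctw : T_CTW := Y950.RL.ctw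
  have sc : T_SC := Y545.RL.sc
  obtain ⟨c, hc, hK⟩ := kthD opt h1 h2 fx
  exact ⟨_, by positivity, fin_threeD hc (fin_twoD hK fk red mea fxe sc utk twa ctw)⟩

end Pool.Agent.X184.RD
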