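import Mathlib
import Pool.Agent.X184.RD.C

/-!
# The relative Lehmer problem and the relative discriminant: algebraic integers
-/

set_option autoImplicit false

open Finset Polynomial Module Pool.Agent.Y947.DL Pool.Agent.Y947.RL IntermediateField

namespace Pool.Agent.X184.RD

/-- the logarithm of the geometric mean of the absolute values of the conjugates over `ℚ` -/
noncomputable def lN (T : ℂ) : ℝ :=
  Real.log |((minpoly ℤ T).coeff 0 : ℝ)| / (minpoly ℤ T).natDegree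

lemma mdisc_norm {m : ℕ} {ω₀ : QAb} (hω₀ : IsPrimitiveRoot ω₀ m) {F : ℤ[X][X]}
    (hF : Hyp3 m F) : mdisc m F = lN (((sp ω₀ F).discr : QAb) : ℂ) ∧
      IsIntegral ℤ (((sp ω₀ F).discr : QAb) : ℂ) ∧ (((sp ω₀ F).discr : QAb) : ℂ) ≠ 0 := by
  classical
  have hm := hF.hm
  set w : ℂ := (ω₀ : ℂ) with hw
  have hwp : IsPrimitiveRoot w m :=
    hω₀.map_of_injective (f := algebraMap QAb ℂ) (algebraMap QAb ℂ).injective
  have hwi : IsIntegral ℚ w := (hwp.isIntegral hm).tower_top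
  haveI : FiniteDimensional ℚ ℚ⟮w⟯ := adjoin.finiteDimensional hwi
  haveI hNF : NumberField ℚ⟮w⟯ := { to_charZero := inferInstance, to_finiteDimensional := inferInstance }
  set g : ℚ⟮w⟯ := AdjoinSimple.gen ℚ w with hg
  have hgw : algebraMap ℚ⟮w⟯ ℂ g = w := AdjoinSimple.algebraMap_gen ℚ w
  have hgp : IsPrimitiveRoot g m := by
    refine IsPrimitiveRoot.of_map_of_injective (f := algebraMap ℚ⟮w⟯ ℂ) ?_
      (algebraMap ℚ⟮w⟯ ℂ).injective
    rw [hgw]; exact hwp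
  have hfr : finrank ℚ ℚ⟮w⟯ = Nat.totient m := by
    rw [adjoin.finrank hwi, ← cyclotomic_eq_minpoly_rat hwp hm, natDegree_cyclotomic]
  have hdp := natDegree_pos3 hF
  set δ : ℚ⟮w⟯ := (sp g F).discr with hδ
  have hmap : ∀ (φ : ℚ⟮w⟯ →+* ℂ), φ δ = (sp (φ g) F).discr := by
    intro φ
    rw [hδ, ← discr_map_monic φ (Y994.RL.Exp.sp_monic g hF.monic)
      (by rw [Y994.RL.Exp.sp_natDegree _ hF.monic]; exact hdp), Y994.RL.Exp.sp_map]
  have hC : algebraMap ℚ⟮w⟯ ℂ δ = (((sp ω₀ F).discr : QAb) : ℂ) := by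
    rw [hmap, hgw]
    have h1 := discr_map_monic (algebraMap QAb ℂ) (Y994.RL.Exp.sp_monic ω₀ hF.monic)
      (by rw [Y994.RL.Exp.sp_natDegree _ hF.monic]; exact hdp)
    rw [Y994.RL.Exp.sp_map] at h1
    exact h1
  have hint : IsIntegral ℤ δ := by
    have hgi : IsIntegral ℤ g := hgp.isIntegral hm
    let g' : integralClosure ℤ ℚ⟮w⟯ := ⟨g, hgi⟩
    have h1 : δ = algebraMap (integralClosure ℤ ℚ⟮w⟯) ℚ⟮w⟯ (sp g' F).discr := by
      rw [hδ, ← discr_map_monic (algebraMap (integralClosure ℤ ℚ⟮w⟯) ℚ⟮w⟯)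
        (Y994.RL.Exp.sp_monic g' hF.monic)
        (by rw [Y994.RL.Exp.sp_natDegree _ hF.monic]; exact hdp), Y994.RL.Exp.sp_map]
      rfl
    rw [h1]
    exact (sp g' F).discr.2
  have hne : (((sp ω₀ F).discr : QAb) : ℂ) ≠ 0 := by
    rw [← hC, hmap, hgw]
    exact norm_ne_zero_iff.mp (discr_ne3 hF hwp)
  have hδ0 : δ ≠ 0 := by
    intro h
    rw [h, map_zero] at hC
    exact hne hC.symm
  have hmin : minpoly ℤ (((sp ω₀ F).discr : QAb) : ℂ) = minpoly ℤ δ := by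
    rw [← hC]
    exact minpoly.algebraMap_eq (algebraMap ℚ⟮w⟯ ℂ).injective δ
  refine ⟨?_, ?_, hne⟩
  · have h1 := Rel.sum_log_norm hint hδ0
    unfold lN
    rw [hmin]
    have hφ : (0:ℝ) < Nat.totient m := by exact_mod_cast Nat.totient_pos.mpr hm
    unfold mdisc meanP
    rw [hfr] at h1
    rw [div_eq_iff hφ.ne', mul_comm, ← h1]
    have h2 : ∑ τ : ℚ⟮w⟯ →ₐ[ℚ] ℂ, Real.log ‖τ δ‖ =
        ∑ τ : ℚ⟮w⟯ →ₐ[ℚ] ℂ, Real.log ‖(sp (τ g) F).discr‖ :=
      Finset.sum_congr rfl fun τ _ => by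
        have := hmap (τ : ℚ⟮w⟯ →+* ℂ)
        rw [show τ δ = (τ : ℚ⟮w⟯ →+* ℂ) δ from rfl, this]
        rfl
    rw [h2, ← Finset.sum_fiberwise_of_maps_to (s := (Finset.univ : Finset (ℚ⟮w⟯ →ₐ[ℚ] ℂ)))
      (t := primitiveRoots m ℂ) (g := fun τ => τ g)]
    · refine Finset.sum_congr rfl fun ω hω => ?_
      have hω' := (mem_primitiveRoots hm).mp hω
      have h3 := (Y65.RL.tr ℚ⟮w⟯ m g hm hgp).2.2 ω hω'
      rw [hfr] at h3
      have h4 : (cls g ω).card = 1 := by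
        have h5 : 0 < Nat.totient m := Nat.totient_pos.mpr hm
        exact Nat.eq_of_mul_eq_mul_right h5 (by rw [h3, one_mul])
      have h6 : ∑ τ ∈ (Finset.univ : Finset (ℚ⟮w⟯ →ₐ[ℚ] ℂ)) with τ g = ω,
          Real.log ‖(sp (τ g) F).discr‖ = ∑ τ ∈ cls g ω, Real.log ‖(sp ω F).discr‖ := by
        have e : (Finset.univ : Finset (ℚ⟮w⟯ →ₐ[ℚ] ℂ)).filter (fun τ => τ g = ω) = cls g ω := by
          unfold cls
          congr
        rw [e]
        refine Finset.sum_congr rfl fun τ hτ => ?_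
        have h7 : τ g = ω := by simpa [cls] using hτ
        rw [h7]
      rw [h6, Finset.sum_const, h4, one_smul]
    · intro τ _
      rw [mem_primitiveRoots hm]
      exact hgp.map_of_injective (f := τ) τ.toRingHom.injective
  · rw [← hC]
    exact hint.map (algebraMap ℚ⟮w⟯ ℂ).toIntAlgHom

/-- the bound for algebraic integers -/
theorem algD : ∃ c : ℝ, 0 < c ∧ ∀ z : ℂ, IsIntegral ℤ z → z ≠ 0 →
    (∀ n : ℕ, 0 < n → z ^ n ≠ 1) →
      0 < (minpoly QAb z).natDegree ∧ 0 < |((minpoly ℤ (((minpoly QAb z).discr : QAb) : ℂ)).coeff 0 : ℝ)| ∧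
      ∀ (K : IntermediateField ℚ ℂ) [FiniteDimensional ℚ K],
        c / Module.finrank ℚ K / (1 + max 0 (Real.log (minpoly QAb z).natDegree -
          lN (((minpoly QAb z).discr : QAb) : ℂ) / (minpoly QAb z).natDegree)) ^ 6 ≤
          (minpoly (K ⊔ QAb : IntermediateField ℚ ℂ) z).natDegree * hgt z := by
  obtain ⟨c, hc, h⟩ := t_finD
  refine ⟨c, hc, ?_⟩
  intro z hz h0 hroot
  obtain ⟨m, ω₀, F, hm, hω₀, hF, heq⟩ := Y858.RL.rep z hz
  have hyp := Y235.RL.Cnj.cnj z hz h0 hroot m ω₀ F hm hω₀ hF heq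
  have hω : IsPrimitiveRoot (ω₀ : ℂ) m :=
    hω₀.map_of_injective (f := algebraMap QAb ℂ) (algebraMap QAb ℂ).injective
  have hzero : (sp (ω₀ : ℂ) F).eval z = 0 := by
    have h1 : sp (ω₀ : ℂ) F = (minpoly QAb z).map (algebraMap QAb ℂ) := by
      rw [← heq, Y947.RL2.sp_map']
      rfl
    rw [h1, eval_map_algebraMap, minpoly.aeval]
  have hdeg : F.natDegree = (minpoly QAb z).natDegree := by
    rw [← heq]
    unfold sp
    rw [hF.natDegree_map]
  obtain ⟨hmd, hdi, hdne⟩ := mdisc_norm hω₀ hyp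
  have h1 := h m F hyp
  rw [Y433.RL.hgt_mean Y65.RL.tr m F hyp ω₀ hω z hzero, hdeg] at h1
  unfold BF at h1
  rw [hmd, hdeg, heq] at h1
  rw [heq] at hdi hdne
  refine ⟨by rw [← hdeg]; exact natDegree_pos3 hyp, ?_, ?_⟩
  · rw [abs_pos]
    intro h2
    have h3 : (minpoly ℤ (((minpoly QAb z).discr : QAb) : ℂ)).coeff 0 = 0 := by exact_mod_cast h2
    have h5 : Associated (X : ℤ[X]) (minpoly ℤ (((minpoly QAb z).discr : QAb) : ℂ)) :=
      irreducible_X.associated_of_dvd (minpoly.irreducible hdi) (X_dvd_iff.mpr h3)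
    have h6 : (X : ℤ[X]) = minpoly ℤ (((minpoly QAb z).discr : QAb) : ℂ) :=
      eq_of_monic_of_associated monic_X (minpoly.monic hdi) h5
    have h7 := minpoly.aeval ℤ (((minpoly QAb z).discr : QAb) : ℂ)
    rw [← h6, aeval_X] at h7
    exact hdne h7
  intro K _
  set M : ℝ := max 0 (Real.log (minpoly QAb z).natDegree -
          lN (((minpoly QAb z).discr : QAb) : ℂ) / (minpoly QAb z).natDegree) with hM
  have hM0 : 0 ≤ M := le_max_left _ _
  have hpow : 0 < (1 + M) ^ 6 := by positivity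
  have hK : (0:ℝ) < Module.finrank ℚ K := by exact_mod_cast Module.finrank_pos
  have h2 : 0 < c / (1 + M) ^ 6 := by positivity
  have h3 : 0 < hgt z := by
    by_contra hneg
    push Not at hneg
    have : ((minpoly QAb z).natDegree : ℝ) * hgt z ≤ 0 :=
      mul_nonpos_of_nonneg_of_nonpos (Nat.cast_nonneg _) hneg
    linarith
  have hzalg : IsAlgebraic ℚ z := (hz.tower_top (A := ℚ)).isAlgebraic
  have h4 : ((minpoly QAb z).natDegree : ℝ) ≤
      Module.finrank ℚ K * (minpoly (K ⊔ QAb : IntermediateField ℚ ℂ) z).natDegree := by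
    exact_mod_cast Y932.RL.Tow.tow K z hzalg
  rw [div_div, mul_comm ((Module.finrank ℚ K : ℝ)), ← div_div, div_le_iff₀ hK]
  calc c / (1 + M) ^ 6 ≤ (minpoly QAb z).natDegree * hgt z := h1
    _ ≤ (Module.finrank ℚ K * (minpoly (K ⊔ QAb : IntermediateField ℚ ℂ) z).natDegree) * hgt z :=
        mul_le_mul_of_nonneg_right h4 h3.le
    _ = (minpoly (K ⊔ QAb : IntermediateField ℚ ℂ) z).natDegree * hgt z * Module.finrank ℚ K := by
      ring

end Pool.Agent.X184.RD
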